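import Mathlib

namespace Pool.Agent.Results.MP_1cb079_al.WCL

open Subgroup
open scoped commutatorElement

lemma comm_pow {Q : Type*} [Group Q] (S : Set Q) (hS : closure S = ⊤) (n : ℕ)
    (hn : ∀ s ∈ S, s ^ n ∈ center Q) (a : Q) (ha : ∀ h, ⁅a, h⁆ ∈ center Q) (h : Q) :
    ⁅a, h⁆ ^ n = 1 := by
  let ψ : Q →* Q := MonoidHom.mk' (fun h => ⁅a, h⁆) fun h k => by
    have := mem_center_iff.1 (ha k) h
    calc ⁅a, h * k⁆ = ⁅a, h⁆ * (h * ⁅a, k⁆) * h⁻¹ := by
          simp only [commutatorElement_def]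
          group
      _ = _ := by rw [this]; group
  have hh : h ∈ closure S := hS ▸ mem_top h
  show ψ h ^ n = 1
  induction hh using closure_induction with
  | mem s hs =>
    rw [← map_pow]
    exact commutatorElement_eq_one_iff_mul_comm.2 (mem_center_iff.1 (hn s hs) a)
  | one => simp
  | mul x y _ _ hx hy =>
    have : Commute (ψ x) (ψ y) := mem_center_iff.1 (ha y) _
    rw [map_mul, this.mul_pow, hx, hy, mul_one]
  | inv x _ hx => rw [map_inv, inv_pow, hx, inv_one]

lemma step {H : Type*} [Group H] (S : Set H) (hS : closure S = ⊤) (n : ℕ)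
    (hn : ∀ s ∈ S, s ^ n ∈ center H) (A : Subgroup H) [A.Normal] (g : H)
    (hg : g ∈ ⁅A, (⊤ : Subgroup H)⁆) : g ^ n ∈ ⁅⁅A, (⊤ : Subgroup H)⁆, (⊤ : Subgroup H)⁆ := by
  let N := ⁅⁅A, (⊤ : Subgroup H)⁆, (⊤ : Subgroup H)⁆
  let π := QuotientGroup.mk' N
  have hπ : Function.Surjective π := QuotientGroup.mk'_surjective N
  have hc : ∀ g ∈ ⁅A, (⊤ : Subgroup H)⁆, π g ∈ center (H ⧸ N) := by
    intro g hg
    rw [mem_center_iff]
    intro q
    obtain ⟨h, rfl⟩ := hπ q
    refine (commutatorElement_eq_one_iff_mul_comm.1 ?_).symm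
    rw [← map_commutatorElement]
    exact (QuotientGroup.eq_one_iff _).2 (commutator_mem_commutator hg (mem_top _))
  have hS' : closure (π '' S) = ⊤ := by
    rw [← MonoidHom.map_closure, hS, map_top_of_surjective _ hπ]
  have hn' : ∀ s ∈ π '' S, s ^ n ∈ center (H ⧸ N) := by
    rintro _ ⟨s, hs, rfl⟩
    rw [mem_center_iff]
    intro q
    obtain ⟨h, rfl⟩ := hπ q
    rw [← map_pow, ← map_mul, ← map_mul, mem_center_iff.1 (hn s hs) h]
  refine (QuotientGroup.eq_one_iff (N := N) _).1 ?_
  show π (g ^ n) = 1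
  rw [map_pow]
  have hg' : g ∈ closure {g | ∃ g₁ ∈ A, ∃ g₂ ∈ (⊤ : Subgroup H), ⁅g₁, g₂⁆ = g} := hg
  clear hg
  induction hg' using closure_induction with
  | mem s hs =>
    obtain ⟨a, ha, h, -, rfl⟩ := hs
    rw [map_commutatorElement]
    refine comm_pow _ hS' n hn' _ (fun q => ?_) _
    obtain ⟨k, rfl⟩ := hπ q
    rw [← map_commutatorElement]
    exact hc _ (commutator_mem_commutator ha (mem_top _))
  | one => simp
  | mul x y _ hy' hx hy =>
    have : Commute (π x) (π y) := mem_center_iff.1 (hc y hy') _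
    rw [map_mul, this.mul_pow, hx, hy, mul_one]
  | inv x _ hx => rw [map_inv, inv_pow, hx, inv_one]

lemma key {H : Type*} [Group H] (n c : ℕ) (hc : (⊤ : Subgroup H).lowerCentralSeries c = ⊥)
    (x y : H) (hS : closure {x, y} = ⊤) (h : x ^ n = y ^ n) : (x * y⁻¹) ^ n ^ c = 1 := by
  have hn : ∀ s ∈ ({x, y} : Set H), s ^ n ∈ center H := by
    have : x ^ n ∈ center H := by
      rw [mem_center_iff]
      intro g
      have hg : g ∈ closure {x, y} := hS ▸ mem_top g
      induction hg using closure_induction with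
      | mem s hs =>
        rcases hs with rfl | rfl
        · exact (Commute.self_pow s n).eq
        · rw [h]
          exact (Commute.self_pow s n).eq
      | one => simp
      | mul a b _ _ ha hb => exact (Commute.mul_left ha hb).eq
      | inv a _ ha => exact (Commute.inv_left ha).eq
    rintro s (rfl | rfl)
    · exact this
    · exact h ▸ this
  have h1 : ∀ i, (x * y⁻¹) ^ n ^ i ∈ (⊤ : Subgroup H).lowerCentralSeries i := by
    intro i
    induction i with
    | zero => exact mem_top _
    | succ i ih =>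
      cases i with
      | zero =>
        rw [zero_add, pow_one, top_lowerCentralSeries_one, ← Abelianization.ker_of,
          MonoidHom.mem_ker, map_pow, map_mul, mul_pow, map_inv, inv_pow, ← map_pow, ← map_pow, h,
          mul_inv_cancel]
      | succ i =>
        rw [pow_succ, pow_mul]
        exact step _ hS n hn _ _ ih
  have := h1 c
  rwa [hc, mem_bot] at this

theorem result (G : Type*) [Group G] [Group.IsNilpotent G]
    (hG : ∀ n : ℕ, 0 < n → {g : G | g ^ n = 1}.Finite) (n : ℕ) (hn : 0 < n) (z : G) :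
    {x : G | x ^ n = z}.Finite := by
  obtain ⟨c, hc⟩ : ∃ c, (⊤ : Subgroup G).lowerCentralSeries c = ⊥ :=
    Subgroup.nilpotent_iff_lowerCentralSeries.1 inferInstance
  rcases Set.eq_empty_or_nonempty {x : G | x ^ n = z} with h | ⟨y, hy⟩
  · rw [h]
    exact Set.finite_empty
  refine ((hG (n ^ c) (pow_pos hn c)).image (· * y)).subset fun x hx => ⟨x * y⁻¹, ?_, by simp⟩
  let H := closure ({x, y} : Set G)
  have hx' : x ∈ H := subset_closure (by simp)
  have hy' : y ∈ H := subset_closure (by simp)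
  have hc' : (⊤ : Subgroup H).lowerCentralSeries c = ⊥ := by
    rw [← map_eq_bot_iff_of_injective _ H.subtype_injective, top_subtype_lowerCentralSeries,
      eq_bot_iff, ← hc]
    exact lowerCentralSeries_mono c le_top
  have hS : closure ({⟨x, hx'⟩, ⟨y, hy'⟩} : Set H) = ⊤ := by
    rw [← closure_closure_coe_preimage]
    congr 1
    ext g
    simp [Subtype.ext_iff]
  have := key n c hc' ⟨x, hx'⟩ ⟨y, hy'⟩ hS (Subtype.ext (hx.trans hy.symm))
  exact congrArg Subtype.val this

end Pool.Agent.Results.MP_1cb079_al.WCL
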